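import Pool.Agent.H252.EL.Iface
import Pool.Graph.R_seed8.Helper133.BUProd

/-!
`S_BU` of project EL (helper252): a Borsuk-Ulam theorem for Bott bundles over products of
two-spheres, from the triangular Borsuk-Ulam theorem of the library.
-/

set_option autoImplicit false
set_option linter.unusedSectionVars false

noncomputable section

namespace Pool.Agent.H350.ELBU

open Matrix Pool.Agent.Helper133 Pool.Agent.H252.EL

/-! ### the Hopf map -/

/-- square of the norm -/
def rr (y : Fin 4 → ℝ) : ℝ := y 0 ^ 2 + y 1 ^ 2 + y 2 ^ 2 + y 3 ^ 2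

lemma rr_ne {y : Fin 4 → ℝ} (h : y ≠ 0) : rr y ≠ 0 := by
  intro h0
  apply h
  unfold rr at h0
  have e0 : y 0 = 0 := by nlinarith [sq_nonneg (y 0), sq_nonneg (y 1), sq_nonneg (y 2), sq_nonneg (y 3)]
  have e1 : y 1 = 0 := by nlinarith [sq_nonneg (y 0), sq_nonneg (y 1), sq_nonneg (y 2), sq_nonneg (y 3)]
  have e2 : y 2 = 0 := by nlinarith [sq_nonneg (y 0), sq_nonneg (y 1), sq_nonneg (y 2), sq_nonneg (y 3)]
  have e3 : y 3 = 0 := by nlinarith [sq_nonneg (y 0), sq_nonneg (y 1), sq_nonneg (y 2), sq_nonneg (y 3)]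
  funext k
  fin_cases k
  · exact e0
  · exact e1
  · exact e2
  · exact e3

/-- the coordinates of the Hopf map -/
def hc (y : Fin 4 → ℝ) : Fin 3 → ℝ :=
  ![2 * (y 0 * y 2 + y 1 * y 3) / rr y, 2 * (y 0 * y 3 - y 1 * y 2) / rr y,
    (y 0 ^ 2 + y 1 ^ 2 - y 2 ^ 2 - y 3 ^ 2) / rr y]

lemma hc_norm {y : Fin 4 → ℝ} (h : y ≠ 0) : ‖(WithLp.toLp 2 (hc y) : EuclideanSpace ℝ (Fin 3))‖ = 1 := by
  have hr := rr_ne h
  rw [EuclideanSpace.norm_eq, Fin.sum_univ_three]
  simp only [hc, Real.norm_eq_abs, sq_abs]
  rw [show (1 : ℝ) = Real.sqrt 1 by simp]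
  congr 1
  simp only [Matrix.cons_val_zero, Matrix.cons_val_one, Matrix.cons_val]
  field_simp
  unfold rr
  ring

/-- the Hopf map -/
def hopf (y : Fin 4 → ℝ) : S2 := by
  classical
  exact if h : y = 0 then ⟨EuclideanSpace.single 0 1, by simp⟩
    else ⟨WithLp.toLp 2 (hc y), by rw [mem_sphere_zero_iff_norm]; exact hc_norm h⟩

lemma hopf_coe {y : Fin 4 → ℝ} (h : y ≠ 0) :
    (hopf y : EuclideanSpace ℝ (Fin 3)) = WithLp.toLp 2 (hc y) := by
  unfold hopf
  rw [dif_neg h]

lemma hc_neg (y : Fin 4 → ℝ) : hc (-y) = hc y := by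
  simp [hc, rr]

lemma hopf_neg {y : Fin 4 → ℝ} (h : y ≠ 0) : hopf (-y) = hopf y := by
  apply Subtype.ext
  rw [hopf_coe h, hopf_coe (neg_ne_zero.2 h), hc_neg]

lemma continuousOn_hopf : ContinuousOn hopf {y | y ≠ 0} := by
  have hind : Topology.IsInducing (Subtype.val : S2 → EuclideanSpace ℝ (Fin 3)) :=
    Topology.IsInducing.subtypeVal
  rw [hind.continuousOn_iff]
  have hr : ContinuousOn rr {y | y ≠ 0} := by
    unfold rr
    fun_prop
  have h1 : ContinuousOn (fun y : Fin 4 → ℝ => (WithLp.toLp 2 (hc y) : EuclideanSpace ℝ (Fin 3)))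
      {y | y ≠ 0} := by
    refine (PiLp.continuous_toLp 2 _).comp_continuousOn ?_
    rw [continuousOn_pi]
    intro k
    fin_cases k
    · refine ContinuousOn.div (Continuous.continuousOn ?_) hr (fun y hy => rr_ne hy)
      fun_prop
    · refine ContinuousOn.div (Continuous.continuousOn ?_) hr (fun y hy => rr_ne hy)
      fun_prop
    · refine ContinuousOn.div (Continuous.continuousOn ?_) hr (fun y hy => rr_ne hy)
      fun_prop
  exact h1.congr fun w hw => hopf_coe hw

/-- the complex coordinates -/
def zc (y : Fin 4 → ℝ) : Fin 2 → ℂ := ![(y 0 : ℂ) + y 1 * Complex.I, (y 2 : ℂ) + y 3 * Complex.I]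

lemma zc_neg (y : Fin 4 → ℝ) : zc (-y) = -zc y := by
  funext k
  fin_cases k <;> simp [zc] <;> ring

/-- `⟨z, η⟩` -/
def ip (y : Fin 4 → ℝ) (η : Fin 2 → ℂ) : ℂ := star (zc y 0) * η 0 + star (zc y 1) * η 1

lemma bott_hopf {y : Fin 4 → ℝ} (h : y ≠ 0) (η : Fin 2 → ℂ) :
    (bott (hopf y)).mulVec η = (ip y η / (rr y : ℂ)) • zc y := by
  have hr : (rr y : ℂ) ≠ 0 := by exact_mod_cast rr_ne h
  have hI : Complex.I ^ 2 = -1 := Complex.I_sq
  funext k
  unfold bott
  rw [hopf_coe h]
  have h0 : (WithLp.toLp 2 (hc y) : EuclideanSpace ℝ (Fin 3)) 0 =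
    2 * (y 0 * y 2 + y 1 * y 3) / rr y := rfl
  have h1 : (WithLp.toLp 2 (hc y) : EuclideanSpace ℝ (Fin 3)) 1 =
    2 * (y 0 * y 3 - y 1 * y 2) / rr y := rfl
  have h2 : (WithLp.toLp 2 (hc y) : EuclideanSpace ℝ (Fin 3)) 2 =
    (y 0 ^ 2 + y 1 ^ 2 - y 2 ^ 2 - y 3 ^ 2) / rr y := rfl
  rw [h0, h1, h2]
  have hrr : (rr y : ℂ) = (y 0 : ℂ) ^ 2 + (y 1 : ℂ) ^ 2 + (y 2 : ℂ) ^ 2 + (y 3 : ℂ) ^ 2 := by
    unfold rr; push_cast; ring
  fin_cases k
  · simp only [Matrix.mulVec, dotProduct, Fin.sum_univ_two, Matrix.smul_apply, smul_eq_mul,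
      Matrix.of_apply, Matrix.cons_val', Matrix.cons_val_zero, Matrix.cons_val_one,
      Matrix.cons_val_fin_one, ip, zc, Pi.smul_apply, star_add, star_mul', Fin.zero_eta, Fin.isValue]
    simp only [Complex.star_def, Complex.conj_ofReal, Complex.conj_I]
    push_cast
    field_simp
    rw [hrr]
    ring_nf
    simp only [hI]
    ring
  · simp only [Matrix.mulVec, dotProduct, Fin.sum_univ_two, Matrix.smul_apply, smul_eq_mul,
      Matrix.of_apply, Matrix.cons_val', Matrix.cons_val_zero, Matrix.cons_val_one,
      Matrix.cons_val_fin_one, ip, zc, Pi.smul_apply, star_add, star_mul', Fin.mk_one, Fin.isValue]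
    simp only [Complex.star_def, Complex.conj_ofReal, Complex.conj_I]
    push_cast
    field_simp
    rw [hrr]
    ring_nf
    simp only [hI]
    ring

/-! ### the system of functions -/

/-- the dimensions of the spheres -/
def nn (w : ℕ) : ℕ → ℕ
  | 0 => 2 * w - 1
  | _ + 1 => 3

lemma ip_neg (y : Fin 4 → ℝ) (η : Fin 2 → ℂ) : ip (-y) η = -ip y η := by
  unfold ip
  rw [zc_neg]
  simp only [Pi.neg_apply, star_neg]
  ring

lemma ip_neg' (y : Fin 4 → ℝ) (η : Fin 2 → ℂ) : ip y (-η) = -ip y η := by
  unfold ip
  simp only [Pi.neg_apply]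
  ring

theorem s_BU : S_BU := by
  classical
  intro I V W _ _ _ _ T hT hcard hbott
  set w : ℕ := Fintype.card W with hw
  have hw1 : 1 ≤ w := by omega
  set N : ℕ := Fintype.card I with hN
  set e : I ≃ Fin N := Fintype.equivFin I with he
  set n : ℕ → ℕ := nn w with hn
  have hn0 : n 0 = 2 * w - 1 := rfl
  have hns : ∀ k, n (k + 1) = 3 := fun k => rfl
  have hn1 : ∀ k, 1 ≤ n k := by
    intro k
    rcases k with _ | k
    · rw [hn0]; omega
    · rw [hns]; omega
  have hcard' : Fintype.card (W × Fin 2) = Fintype.card (Fin (n 0 + 1)) := by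
    rw [Fintype.card_prod, Fintype.card_fin, Fintype.card_fin, hn0, ← hw]; omega
  set g : (W × Fin 2) ≃ Fin (n 0 + 1) := Fintype.equivOfCardEq hcard' with hg
  set eV : V ≃ Fin (Fintype.card V) := Fintype.equivFin V with heV
  -- the vector
  set al : BT.Om n → W → ℂ := fun v j => ((v 0 (g (j, 0)) : ℝ) : ℂ) +
    ((v 0 (g (j, 1)) : ℝ) : ℂ) * Complex.I with hal
  -- the coordinates of the spheres
  set zz : BT.Om n → I → (Fin 4 → ℝ) := fun v i => v ((e i : ℕ) + 1) with hzz
  -- the point
  set pt : BT.Om n → I → S2 := fun v i => hopf (zz v i) with hpt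
  set eta : BT.Om n → ((I × Fin 2) ⊕ V) → ℂ := fun v => (T (pt v)).mulVec (al v) with heta
  set FF : I → BT.Om n → ℂ := fun i v => ip (zz v i) (fun t => eta v (Sum.inl (i, t))) with hFF
  set compI : I → ℕ → BT.Om n → ℝ := fun i s v => if s = 0 then (FF i v).re else
    if s = 1 then (FF i v).im else 0 with hcompI
  set compV : V → Fin 2 → BT.Om n → ℝ := fun j b v => if b = 0 then (eta v (Sum.inr j)).re
    else (eta v (Sum.inr j)).im with hcompV
  set f : ℕ → ℕ → BT.Om n → ℝ := fun k s v =>
    (∑ j : V, ∑ b : Fin 2, if k = 0 ∧ 2 * (eV j : ℕ) + b = s then compV j b v else 0) +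
    ∑ i : I, if (e i : ℕ) + 1 = k then compI i s v else 0 with hf
  set pp : ℕ → ℕ → ℕ → ZMod 2 := fun k _ k' => if k' = k ∨ k' = 0 then 1 else 0 with hpp
  have hzne : ∀ v ∈ BT.PP n, ∀ i, zz v i ≠ 0 := by
    intro v hv i h0
    have h1 := hv ((e i : ℕ) + 1)
    simp only [BU.K, Set.mem_ofPred_eq] at h1
    have h2 : ∀ k, v ((e i : ℕ) + 1) k = 0 := fun k => congrFun h0 k
    simp [h2] at h1
  have hcal : Continuous al := by
    refine continuous_pi fun j => ?_
    have h1 : ∀ k, Continuous fun v : BT.Om n => v 0 k := fun k =>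
      (continuous_apply k).comp (continuous_apply 0)
    exact (Complex.continuous_ofReal.comp (h1 _)).add
      ((Complex.continuous_ofReal.comp (h1 _)).mul continuous_const)
  have hczz : ∀ i, Continuous fun v : BT.Om n => zz v i := fun i => continuous_apply _
  have hcpt : ContinuousOn pt (BT.PP n) := by
    rw [continuousOn_pi]
    intro i
    exact continuousOn_hopf.comp (hczz i).continuousOn fun v hv => hzne v hv i
  have hceta : ContinuousOn eta (BT.PP n) := by
    rw [continuousOn_pi]
    intro j
    have h2 : (fun v => eta v j) = fun v => ∑ k, T (pt v) j k * al v k := by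
      funext v; rfl
    rw [h2]
    refine continuousOn_finsetSum _ fun k _ => ?_
    refine ContinuousOn.mul ?_ ((continuous_apply k).comp hcal).continuousOn
    have h3 : Continuous fun q : I → S2 => T q j k := hT.matrix_elem j k
    exact h3.comp_continuousOn hcpt
  have hcetaj : ∀ j, ContinuousOn (fun v => eta v j) (BT.PP n) := fun j =>
    (continuousOn_pi.1 hceta) j
  have hczc : ∀ i t, Continuous fun v : BT.Om n => zc (zz v i) t := by
    intro i t
    have h1 : ∀ k, Continuous fun v : BT.Om n => zz v i k := fun k =>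
      (continuous_apply k).comp (hczz i)
    fin_cases t
    · exact (Complex.continuous_ofReal.comp (h1 _)).add
        ((Complex.continuous_ofReal.comp (h1 _)).mul continuous_const)
    · exact (Complex.continuous_ofReal.comp (h1 _)).add
        ((Complex.continuous_ofReal.comp (h1 _)).mul continuous_const)
  have hcFF : ∀ i, ContinuousOn (FF i) (BT.PP n) := by
    intro i
    have h1 : FF i = fun v => star (zc (zz v i) 0) * eta v (Sum.inl (i, 0)) +
        star (zc (zz v i) 1) * eta v (Sum.inl (i, 1)) := rfl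
    rw [h1]
    exact (((hczc i 0).star).continuousOn.mul (hcetaj _)).add
      (((hczc i 1).star).continuousOn.mul (hcetaj _))
  have hcf : ∀ k s, ContinuousOn (f k s) (BT.PP n) := by
    intro k s
    refine ContinuousOn.add (continuousOn_finsetSum _ fun j _ => continuousOn_finsetSum _
      fun b _ => ?_) (continuousOn_finsetSum _ fun i _ => ?_)
    · split_ifs
      · simp only [hcompV]
        split_ifs
        · exact Complex.continuous_re.comp_continuousOn (hcetaj _)
        · exact Complex.continuous_im.comp_continuousOn (hcetaj _)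
      · exact continuousOn_const
    · split_ifs
      · simp only [hcompI]
        split_ifs
        · exact Complex.continuous_re.comp_continuousOn (hcFF i)
        · exact Complex.continuous_im.comp_continuousOn (hcFF i)
        · exact continuousOn_const
      · exact continuousOn_const
  -- parity with respect to the vector
  have hzz0 : ∀ v, zz (BT.flp n 0 v) = zz v := by
    intro v
    funext i
    simp only [hzz, BT.flp]
    rw [Function.update_of_ne (Nat.succ_ne_zero _)]
  have hal0 : ∀ v, al (BT.flp n 0 v) = - al v := by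
    intro v
    funext k
    simp only [hal, BT.flp, Function.update_self, Pi.neg_apply]
    push_cast; ring
  have heta0 : ∀ v, eta (BT.flp n 0 v) = - eta v := by
    intro v
    have h2 : pt (BT.flp n 0 v) = pt v := by
      funext i
      simp only [hpt, hzz0]
    simp only [heta, hal0, h2, Matrix.mulVec_neg]
  have hFF0 : ∀ v i, FF i (BT.flp n 0 v) = - FF i v := by
    intro v i
    simp only [hFF, hzz0, heta0]
    exact ip_neg' _ _
  -- parity with respect to the spheres
  have hzz1 : ∀ v, ∀ i : I, zz (BT.flp n ((e i : ℕ) + 1) v) i = - zz v i := by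
    intro v i
    simp only [hzz, BT.flp, Function.update_self]
    rfl
  have hzz2 : ∀ v, ∀ i j : I, j ≠ i → zz (BT.flp n ((e i : ℕ) + 1) v) j = zz v j := by
    intro v i j hj
    simp only [hzz, BT.flp]
    rw [Function.update_of_ne]
    intro h
    exact hj (e.injective (Fin.ext (by omega)))
  have heta1 : ∀ v ∈ BT.PP n, ∀ i : I, eta (BT.flp n ((e i : ℕ) + 1) v) = eta v := by
    intro v hv i
    have h1 : al (BT.flp n ((e i : ℕ) + 1) v) = al v := by
      funext k
      simp only [hal, BT.flp]
      have : (0 : ℕ) ≠ (e i : ℕ) + 1 := by omega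
      rw [Function.update_of_ne this]
    have h2 : pt (BT.flp n ((e i : ℕ) + 1) v) = pt v := by
      funext a
      by_cases ha : a = i
      · subst ha
        simp only [hpt]
        rw [hzz1, hopf_neg (hzne v hv a)]
      · simp only [hpt]
        rw [hzz2 v i a ha]
    simp only [heta, h1, h2]
  have hFF1 : ∀ v ∈ BT.PP n, ∀ i j : I, FF j (BT.flp n ((e i : ℕ) + 1) v) =
      (if j = i then -1 else 1) * FF j v := by
    intro v hv i j
    simp only [hFF, heta1 v hv i]
    by_cases hj : j = i
    · subst hj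
      rw [hzz1, ip_neg, if_pos rfl]
      ring
    · rw [hzz2 v i j hj, if_neg hj, one_mul]
  have hpar : ∀ k < N + 1, ∀ s < n k, ∀ k' < N + 1, ∀ v ∈ BT.PP n,
      f k s (BT.flp n k' v) = BT.sgn (pp k s k') * f k s v := by
    intro k _ s _ k' hk' v hv
    simp only [hf]
    rw [mul_add, Finset.mul_sum, Finset.mul_sum]
    congr 1
    · refine Finset.sum_congr rfl fun j _ => ?_
      rw [Finset.mul_sum]
      refine Finset.sum_congr rfl fun b _ => ?_
      by_cases hcond : k = 0 ∧ 2 * (eV j : ℕ) + b = s
      · rw [if_pos hcond, if_pos hcond]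
        rcases k' with _ | k'
        · simp only [hcompV, heta0, Pi.neg_apply, Complex.neg_re, Complex.neg_im]
          simp only [hpp, BT.sgn]
          split_ifs <;> simp_all
        · have hlt : k' < N := by omega
          obtain ⟨i, hi'⟩ : ∃ i : I, (e i : ℕ) = k' := ⟨e.symm ⟨k', hlt⟩, by simp⟩
          subst hi'
          simp only [hcompV, heta1 v hv i]
          have h6 : ¬ ((e i : ℕ) + 1 = k ∨ (e i : ℕ) + 1 = 0) := by
            rintro (h | h)
            · omega
            · omega
          simp only [hpp, BT.sgn]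
          rw [if_neg h6, if_pos rfl, one_mul]
      · rw [if_neg hcond, if_neg hcond, mul_zero]
    · refine Finset.sum_congr rfl fun j _ => ?_
      by_cases hcond : (e j : ℕ) + 1 = k
      · rw [if_pos hcond, if_pos hcond]
        rcases k' with _ | k'
        · simp only [hcompI, hFF0, Complex.neg_re, Complex.neg_im]
          simp only [hpp, BT.sgn]
          split_ifs <;> simp_all
        · have hlt : k' < N := by omega
          obtain ⟨i, hi'⟩ : ∃ i : I, (e i : ℕ) = k' := ⟨e.symm ⟨k', hlt⟩, by simp⟩
          subst hi'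
          simp only [hcompI, hFF1 v hv i j]
          by_cases hji : j = i
          · subst hji
            have h5 : (e j : ℕ) + 1 = k ∨ (e j : ℕ) + 1 = 0 := Or.inl hcond
            simp only [hpp, BT.sgn]
            rw [if_pos trivial, if_pos h5, if_neg one_ne_zero]
            split_ifs <;> simp
          · have h6 : ¬ ((e i : ℕ) + 1 = k ∨ (e i : ℕ) + 1 = 0) := by
              rintro (h | h)
              · exact hji (e.injective (Fin.ext (by omega)))
              · omega
            simp only [hpp, BT.sgn]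
            rw [if_neg hji, if_neg h6, if_pos rfl]
            split_ifs <;> simp
      · rw [if_neg hcond, if_neg hcond, mul_zero]
  obtain ⟨v, hv, hz⟩ := BT.triangular n hn1 (N + 1) pp (by intro i r; simp [hpp])
    (by
      intro i r k hik
      show (if k = i ∨ k = 0 then (1 : ZMod 2) else 0) = 0
      rw [if_neg]
      rintro (h | h) <;> omega) f hcf hpar
  -- the functions `F_i` vanish
  have hF0 : ∀ i, FF i v = 0 := by
    intro i
    have key : ∀ s, s < 3 → compI i s v = 0 := by
      intro s hs
      have h1 := hz ((e i : ℕ) + 1) (by have := (e i).2; omega) s hs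
      simp only [hf] at h1
      rw [Finset.sum_eq_zero, zero_add, Finset.sum_eq_single i] at h1
      · simpa using h1
      · intro j _ hj
        rw [if_neg]
        intro h
        exact hj (e.injective (Fin.ext (by omega)))
      · intro h; exact absurd (Finset.mem_univ _) h
      · intro j _
        refine Finset.sum_eq_zero fun b _ => ?_
        rw [if_neg]
        rintro ⟨h, -⟩
        omega
    have h0 : (FF i v).re = 0 := by simpa [hcompI] using key 0 (by omega)
    have h1 : (FF i v).im = 0 := by simpa [hcompI] using key 1 (by omega)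
    exact Complex.ext h0 h1
  have hV0 : ∀ j, eta v (Sum.inr j) = 0 := by
    intro j
    have key : ∀ b : Fin 2, compV j b v = 0 := by
      intro b
      have hlt2 : 2 * (eV j : ℕ) + b < n 0 := by
        rw [hn0]
        have h1 := (eV j).2
        have h2 := b.2
        omega
      have h1 := hz 0 (by omega) _ hlt2
      simp only [hf] at h1
      rw [Finset.sum_eq_single j, Finset.sum_eq_single b,
        Finset.sum_eq_zero (s := (Finset.univ : Finset I)), add_zero] at h1
      · simpa using h1
      · intro i _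
        rw [if_neg (Nat.succ_ne_zero _)]
      · intro b' _ hb'
        rw [if_neg]
        rintro ⟨_, h3⟩
        exact hb' (Fin.ext (by omega))
      · intro h; exact absurd (Finset.mem_univ _) h
      · intro j' _ hj'
        refine Finset.sum_eq_zero fun b' _ => ?_
        rw [if_neg]
        rintro ⟨_, h5⟩
        apply hj'
        have hb1 := b.2
        have hb2 := b'.2
        exact eV.injective (Fin.ext (by omega))
      · intro h; exact absurd (Finset.mem_univ _) h
    have h0 : (eta v (Sum.inr j)).re = 0 := by simpa [hcompV] using key 0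
    have h1 : (eta v (Sum.inr j)).im = 0 := by simpa [hcompV] using key 1
    exact Complex.ext h0 h1
  refine ⟨pt v, al v, ?_, ?_⟩
  · intro h0
    have h1 := hv 0
    simp only [BU.K, Set.mem_ofPred_eq] at h1
    have h2 : ∀ k, v 0 k = 0 := by
      intro k
      obtain ⟨⟨j, b⟩, rfl⟩ := g.surjective k
      have h3 := congrFun h0 j
      simp only [hal, Pi.zero_apply] at h3
      have h4 := congrArg Complex.re h3
      have h5 := congrArg Complex.im h3
      simp at h4 h5
      fin_cases b
      · exact h4
      · exact h5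
    simp [h2] at h1
  · funext j
    rcases j with ⟨i, t⟩ | j
    · have h1 := hbott (pt v) (al v) i
      have h2 : (bott (pt v i)).mulVec (fun t => (T (pt v)).mulVec (al v) (Sum.inl (i, t))) =
          (ip (zz v i) (fun t => eta v (Sum.inl (i, t))) / (rr (zz v i) : ℂ)) • zc (zz v i) :=
        bott_hopf (hzne v hv i) _
      have h3 : ip (zz v i) (fun t => eta v (Sum.inl (i, t))) = 0 := hF0 i
      rw [h3, zero_div, zero_smul] at h2
      rw [h2] at h1
      exact (congrFun h1 t).symm
    · exact hV0 j

end Pool.Agent.H350.ELBU
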