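import Pool.Agent.H283.HT.Stm

set_option autoImplicit false

namespace Pool.Agent.H350.HTMAIN

open Pool.Agent.H283.HT

theorem MAIN_done (hMIR : S_MIR) (hPARTI : S_PARTI) (hBOTH : S_BOTH) : S_MAIN := by
  intro K hK
  obtain ⟨hB, hSh, -, hI, -⟩ := hMIR K hK
  by_cases h1 : Low K
  · exact hPARTI K hK h1
  by_cases h2 : Low (Mz '' K)
  · exact hI (hPARTI _ hB h2)
  unfold Low at h1 h2
  push Not at h1 h2
  obtain ⟨x, hx, hx1, hx2⟩ := h1
  obtain ⟨y, hy, hy1, hy2⟩ := h2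
  obtain ⟨z, hz, rfl⟩ := hy
  have hx3 : x.2 = -1 := le_antisymm hx2 (hK.ge x hx)
  have hz3 : z.2 = 1 := by
    have h3 : (Mz z).2 = -z.2 := rfl
    rw [h3] at hy2
    exact le_antisymm (hK.le z hz) (by linarith)
  rw [hSh] at hy1
  have hz1 : z.1 ∉ interior (Sh K) := hy1
  refine hBOTH K hK z.1 x.1 ?_ ?_ hz1 hx1
  · have e : ((z.1, (1 : ℝ)) : P3) = z := by rw [← hz3]
    rw [e]; exact hz
  · have e : ((x.1, (-1 : ℝ)) : P3) = x := by rw [← hx3]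
    rw [e]; exact hx

end Pool.Agent.H350.HTMAIN
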